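import Pool.Agent.Helper31.BC.Stmts

/-! # ADD: the vectors on the lattice are affine in the assignment and the choices -/

set_option autoImplicit false

namespace Pool.Agent.Helper31.BC

open Pool.Agent.Helper52.Grid

theorem add_aff (G : Bool → Bool → ℤ)
    (h : G true true + G false false = G true false + G false true) :
    ∃ u w : Bool → ℤ, ∀ b c, G b c = u b + w c := by
  refine ⟨fun b => G b false, fun c => G false c - G false false, ?_⟩
  intro b c
  cases b <;> cases c <;> dsimp only <;> linarith

theorem add_H (s : List Sub) (M : ℕ) (hs : ∀ k i d, sg s k = some (i, d) → i < 2 * M + 1)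
    (x y : ℕ) :
    XH s M (fun _ => true) (fun _ => true) x y + XH s M (fun _ => false) (fun _ => false) x y =
      XH s M (fun _ => true) (fun _ => false) x y +
        XH s M (fun _ => false) (fun _ => true) x y := by
  by_cases hc : 5 ≤ x ∧ 4 ≤ y ∧ (x - 5) % 4 = 1 ∧ (y - 4) % 6 = 1 ∧
    sg s ((x - 5) / 4) = some ((y - 4) / 6, true)
  · obtain ⟨hx, hy, hxm, hym, hsg⟩ := hc
    have hi := hs _ _ _ hsg
    have hk : (x - 5) / 4 < s.length := by
      by_contra hcon
      unfold sg at hsg
      rw [List.getD_eq_default _ _ (not_lt.1 hcon)] at hsg
      exact absurd hsg (by simp)
    have hkind : kind (sg s ((x - 5) / 4)) ((y - 4) / 6) = .dblk := by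
      rw [hsg]
      simp [kind]
    have hC2 : hC s M x y = 2 := by
      unfold hC
      rw [if_neg (by omega), if_pos hi, if_neg (by omega), if_pos (by omega), hkind, hxm, hym]
      rfl
    have hUs : ∀ a ch, hUse s M a ch x y = (bst s a ((y - 4) / 6) ((x - 5) / 4) &&
        !ch ((x - 5) / 4)) := by
      intro a ch
      unfold hUse
      rw [hC2, if_neg (by norm_num), if_pos rfl]
      unfold hO
      rw [if_neg (by omega), if_neg (by omega), if_pos (by omega), hkind, hym]
      rfl
    have hbad : ∀ a ch, isBad s a ch x y = (ch ((x - 5) / 4) &&
        !bst s a ((y - 4) / 6) ((x - 5) / 4)) := by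
      intro a ch
      unfold isBad
      rw [decide_eq_true ⟨hx, hy, hxm, hym, hsg⟩, Bool.true_and]
    unfold XH
    simp only [hUs, hbad, bst]
    generalize decide (cnt s ((y - 4) / 6) ((x - 5) / 4) % 2 = 0) = p
    cases p <;> rfl
  · have hbad : ∀ a ch, isBad s a ch x y = false := by
      intro a ch
      unfold isBad
      rw [decide_eq_false hc, Bool.false_and, Bool.false_and]
    unfold XH
    simp only [hbad]
    unfold hUse
    by_cases h0 : hC s M x y = 0
    · simp only [h0, if_true]
    by_cases h2 : hC s M x y = 2
    · simp only [h2, if_neg (show ¬ (2 : ℕ) = 0 by norm_num), if_true]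
      unfold hO
      by_cases hy : y < 4
      · simp only [if_pos hy]
        by_cases hy2 : y = 2
        · simp only [if_pos hy2]
          rfl
        · simp only [if_neg hy2]
      · simp only [if_neg hy]
        by_cases hx : x < 5
        · simp only [if_pos hx, bst]
        · simp only [if_neg hx]
          by_cases hx2 : x < 5 + 4 * s.length
          · simp only [if_pos hx2]
            have hC2 : hC s M x y = if (y - 4) / 6 < 2 * M + 1 then
                hCell (kind (sg s ((x - 5) / 4)) ((y - 4) / 6)) ((y - 4) % 6) ((x - 5) % 4)
                else 4 := by
              unfold hC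
              rw [if_neg hy, if_neg hx, if_pos hx2]
            have hM : (y - 4) / 6 < 2 * M + 1 := by
              by_contra hcon
              rw [if_neg hcon] at hC2
              omega
            rw [if_pos hM, h2] at hC2
            have hdb : kind (sg s ((x - 5) / 4)) ((y - 4) / 6) = .dblk → (y - 4) % 6 ≠ 1 := by
              intro hK hr
              rw [hK, hr] at hC2
              have hj : (x - 5) % 4 = 1 := by
                have : (x - 5) % 4 < 4 := Nat.mod_lt _ (by norm_num)
                revert hC2
                generalize (x - 5) % 4 = j at this ⊢
                interval_cases j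
                · intro h
                  exact absurd h (by decide)
                · intro _
                  rfl
                · intro h
                  exact absurd h (by decide)
                · intro h
                  exact absurd h (by decide)
              apply hc
              refine ⟨by omega, by omega, hj, hr, ?_⟩
              revert hK
              generalize sg s ((x - 5) / 4) = o
              intro hK
              cases o with
              | none => exact absurd hK (by simp [kind])
              | some vb =>
                obtain ⟨v, b⟩ := vb
                unfold kind at hK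
                dsimp only at hK
                split_ifs at hK with e1 e2
                · rw [e1, e2]
            revert hdb
            simp only [bst]
            generalize decide (cnt s ((y - 4) / 6) ((x - 5) / 4) % 2 = 0) = p
            generalize kind (sg s ((x - 5) / 4)) ((y - 4) / 6) = K
            generalize (y - 4) % 6 = r
            intro hdb
            rcases r with _ | _ | _ | _ | r
            · cases K <;> cases p <;> rfl
            · cases K
              · cases p <;> rfl
              · cases p <;> rfl
              · cases p <;> rfl
              · exact absurd rfl (hdb rfl)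
            · cases K <;> cases p <;> rfl
            · cases K <;> cases p <;> rfl
            · cases K <;> cases p <;> rfl
          · simp only [if_neg hx2, bst]
    · simp only [if_neg h0, if_neg h2]

theorem add_V (s : List Sub) (M : ℕ) (x y : ℕ) :
    XV s M (fun _ => true) (fun _ => true) x y + XV s M (fun _ => false) (fun _ => false) x y =
      XV s M (fun _ => true) (fun _ => false) x y +
        XV s M (fun _ => false) (fun _ => true) x y := by
  unfold XV
  unfold vUse
  by_cases h0 : vC s M x y = 0
  · simp only [h0, if_true]
  by_cases h2 : vC s M x y = 2
  · simp only [h2, if_neg (show ¬ (2 : ℕ) = 0 by norm_num), if_true]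
    unfold vO
    by_cases hy : y < 4
    · simp only [if_pos hy]
      by_cases hy2 : y = 2
      · simp only [if_pos hy2]
        rfl
      · simp only [if_neg hy2]
        rfl
    · simp only [if_neg hy]
      by_cases hx : x < 5
      · simp only [if_pos hx, bst]
      · simp only [if_neg hx]
        by_cases hx2 : x < 5 + 4 * s.length
        · simp only [if_pos hx2, bst]
          generalize decide (cnt s ((y - 4) / 6) ((x - 5) / 4) % 2 = 0) = p
          generalize kind (sg s ((x - 5) / 4)) ((y - 4) / 6) = K
          generalize (y - 4) % 6 = r
          cases K
          · rcases r with _ | _ | r <;> cases p <;> rfl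
          · by_cases hr : r % 2 = 0
            · simp only [if_pos hr]
              rfl
            · simp only [if_neg hr]
              rfl
          · rcases r with _ | _ | r <;> cases p <;> rfl
          · rcases r with _ | _ | r <;> cases p <;> rfl
        · simp only [if_neg hx2, bst]
  · simp only [if_neg h0, if_neg h2]

theorem st_ADD : ST_ADD := by
  intro s M hs x y
  constructor
  · obtain ⟨u, w, h⟩ := add_aff (fun b c => XH s M (fun _ => b) (fun _ => c) x y)
      (add_H s M hs x y)
    refine ⟨u, w, fun a ch => ?_⟩
    rw [← h]
    rfl
  · obtain ⟨u, w, h⟩ := add_aff (fun b c => XV s M (fun _ => b) (fun _ => c) x y)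
      (add_V s M x y)
    refine ⟨u, w, fun a ch => ?_⟩
    rw [← h]
    rfl

end Pool.Agent.Helper31.BC
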